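import Mathlib
import Pool.Agent.H8.Sier2
import Pool.Agent.H8.Sier3

set_option autoImplicit false

namespace Pool.Agent.Results.MP_10444e_gt.CH

open Set Filter Topology Function MeasureTheory Pool.Agent.H8.Tau

lemma fl_cont {x : ℝ} (hx : Irrational x) (n : ℕ) :
    ∀ᶠ y in 𝓝 x, ⌊((n : ℝ) + 1) * y⌋ = ⌊((n : ℝ) + 1) * x⌋ := by
  have h1 : Irrational (((n + 1 : ℕ) : ℝ) * x) := hx.natCast_mul (by omega)
  push_cast at h1
  have h2 : Ioo (⌊((n : ℝ) + 1) * x⌋ : ℝ) (⌊((n : ℝ) + 1) * x⌋ + 1) ∈ 𝓝 (((n : ℝ) + 1) * x) :=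
    Ioo_mem_nhds ((Int.floor_le _).lt_of_ne (h1.ne_int _).symm) (Int.lt_floor_add_one _)
  have h3 : ContinuousAt (fun y : ℝ => ((n : ℝ) + 1) * y) x := by fun_prop
  filter_upwards [h3 h2] with y hy using Int.floor_eq_iff.2 ⟨hy.1.le, hy.2⟩

/-- the coding of a real -/
noncomputable def cd (x : ℝ) : ℕ × Option ℤ → ℕ
  | (n, none) => ⌊((n : ℝ) + 1) * x⌋.natAbs
  | (n, some j) => if ⌊((n : ℝ) + 1) * x⌋ = j then 1 else 0

lemma key {ι : Type} (𝒰 : Ultrafilter ι) (u : ι → ℝ) (g : ℕ × Option ℤ → ℕ)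
    (hu : ∀ i, ∀ᶠ p in (𝒰 : Filter ι), cd (u p) i ≤ g i) {F : Set ℝ} (hF : F.Finite)
    (hg : ∀ᶠ i in cofinite, ∃ z ∈ F, g i ≤ cd z i) : ∃ a ∈ F, Tendsto u 𝒰 (𝓝 a) := by
  have h1 : ∀ n : ℕ, ∃ j : ℤ, ∀ᶠ p in (𝒰 : Filter ι), ⌊((n : ℝ) + 1) * u p⌋ = j := fun n => by
    have h2 : {j : ℤ | j.natAbs ≤ g (n, none)}.Finite :=
      (finite_Icc (-(g (n, none) : ℤ)) (g (n, none))).subset fun j hj => by
        simp only [mem_setOf_eq, mem_Icc] at hj ⊢; omega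
    obtain ⟨j, -, hj⟩ := (Ultrafilter.eventually_exists_mem_iff (f := 𝒰)
      (P := fun j p => ⌊((n : ℝ) + 1) * u p⌋ = j) h2).1 ((hu (n, none)).mono fun p hp => ⟨_, hp, rfl⟩)
    exact ⟨j, hj⟩
  choose j hj using h1
  have h2 : Tendsto (fun n => ((n, some (j n)) : ℕ × Option ℤ)) atTop cofinite := by
    rw [← Nat.cofinite_eq_atTop]
    exact Injective.tendsto_cofinite fun a b h => (Prod.ext_iff.1 h).1
  have h3 : ∀ᶠ n : ℕ in atTop, ∃ z ∈ F, ⌊((n : ℝ) + 1) * z⌋ = j n := by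
    filter_upwards [h2 hg] with n ⟨z, h4, h5⟩
    obtain ⟨p, h6, h7⟩ := ((hu (n, some (j n))).and (hj n)).exists
    refine ⟨z, h4, by_contra fun h8 => ?_⟩
    simp only [cd, h7, h8, if_true, if_false] at h5 h6
    omega
  obtain ⟨z, h4, h5⟩ := (frequently_exists_finite hF).1 h3.frequently
  refine ⟨z, h4, Metric.tendsto_nhds.2 fun ε hε => ?_⟩
  obtain ⟨n, h6, h7⟩ := (h5.and_eventually
    (tendsto_one_div_add_atTop_nhds_zero_nat.eventually (gt_mem_nhds hε))).exists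
  filter_upwards [hj n] with p hp
  refine lt_trans ?_ h7
  have h8 := Int.abs_sub_lt_one_of_floor_eq_floor (hp.trans h6.symm)
  have h9 : (0 : ℝ) < n + 1 := by positivity
  rw [← mul_sub, abs_mul, abs_of_pos h9] at h8
  rw [Real.dist_eq, lt_div_iff₀' h9]
  exact h8

theorem result (h : Cardinal.continuum.{0} = Cardinal.aleph 1) : ¬ (∀ X : Set ℝ,
      (∀ U : ℕ → Set (Set ℝ), (∀ n, ∀ u ∈ U n, IsOpen u) → (∀ n, X ⊆ ⋃₀ U n) →
        ∃ F : ℕ → Finset (Set ℝ), (∀ n, (↑(F n) : Set (Set ℝ)) ⊆ U n) ∧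
          ∀ A : Finset ℝ, (↑A : Set ℝ) ⊆ X →
            ∃ n, (↑A : Set ℝ) ⊆ ⋃₀ (↑(F n) : Set (Set ℝ))) →
      ∀ f : ℝ → (ℕ → ℕ), ContinuousOn f X →
        (∀ U : ℕ → Set (Set (ℕ → ℕ)), (∀ n, ∀ u ∈ U n, IsOpen u) →
          (∀ n, {g : ℕ → ℕ | ∃ F : Finset (ℕ → ℕ), F.Nonempty ∧
              (↑F : Set (ℕ → ℕ)) ⊆ f '' X ∧
              ∀ᶠ m in Filter.atTop, g m ≤ F.sup (fun h => h m)} ⊆ ⋃₀ U n) →
          ∃ F : ℕ → Finset (Set (ℕ → ℕ)), (∀ n, (↑(F n) : Set (Set (ℕ → ℕ))) ⊆ U n) ∧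
            ∀ A : Finset (ℕ → ℕ),
              (↑A : Set (ℕ → ℕ)) ⊆ {g : ℕ → ℕ | ∃ F : Finset (ℕ → ℕ), F.Nonempty ∧
                (↑F : Set (ℕ → ℕ)) ⊆ f '' X ∧
                ∀ᶠ m in Filter.atTop, g m ≤ F.sup (fun h => h m)} →
              ∃ n, (↑A : Set (ℕ → ℕ)) ⊆ ⋃₀ (↑(F n) : Set (Set (ℕ → ℕ))))) := by
  classical
  intro H
  obtain ⟨D, W, h1, h2, h3, h4, h5⟩ := exists_W'
  obtain ⟨S, h6, h7, h8⟩ := sier_sum h h1
  obtain ⟨μ, _, hμ, -⟩ := h6.meas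
  obtain ⟨e⟩ : Nonempty (ℕ ≃ ℕ × Option ℤ) := nonempty_equiv_of_countable
  let X := S ∩ {x | Irrational x}
  have hX : X.Nonempty := by
    by_contra hc
    refine h6.1 ((countable_range ((↑) : ℚ → ℝ)).mono fun x hx => by_contra fun h9 => hc ⟨x, hx, h9⟩)
  let f : ℝ → ℕ → ℕ := fun x m => cd x (e m)
  let B : ℕ → ℕ → Set (ℕ → ℕ) := fun n k =>
    (closure ((fun p : ℝ × ℝ => f p.1 ⊔ f p.2) '' {p | p.1 ∈ X ∧ p.2 ∈ X ∧ p.1 + p.2 ∉ W n k}))ᶜ
  refine (H X (fun U ho hc => ?_) f ?_ (fun n => range (B n))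
    (by rintro n _ ⟨k, rfl⟩; exact isClosed_closure.isOpen_compl) ?_).elim fun F ⟨hF, hA⟩ => ?_
  rotate_right
  · have : ∀ n, ∃ k, ∀ u ∈ F n, ∃ i ≤ k, B n i = u := fun n => by
      choose i hi using fun u : F n => hF n u.2
      exact ⟨Finset.univ.sup i, fun u hu => ⟨i ⟨u, hu⟩, Finset.le_sup (Finset.mem_univ _), hi _⟩⟩
    choose k hk using this
    obtain ⟨p, -, p2, p3, p4⟩ := h5 k
    have : ∃ t, p t ∉ D ∪ ⋃ q : ℚ, (fun x => x + q) '' (S ∩ (fun x => x + q) ⁻¹' range p) := by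
      by_contra hc
      push Not at hc
      refine Cardinal.not_countable_real (((h1.union (countable_iUnion fun q : ℚ =>
        (h6.2 _ ?_).image _)).preimage p2).mono fun t _ => hc t)
      rw [measure_preimage_add_right, p3]
    obtain ⟨t, ht⟩ := this
    simp only [mem_union, mem_iUnion, not_or, not_exists] at ht
    obtain ⟨x, hx, y, hy, hxy⟩ := h8 _ ht.1
    have a1 : x ∈ X := ⟨hx, fun ⟨q, hq⟩ =>
      ht.2 q ⟨y, ⟨hy, t, by simp [hq, ← hxy, add_comm]⟩, by simp [hq, ← hxy, add_comm]⟩⟩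
    have a2 : y ∈ X := ⟨hy, fun ⟨q, hq⟩ =>
      ht.2 q ⟨x, ⟨hx, t, by simp [hq, ← hxy]⟩, by simp [hq, ← hxy]⟩⟩
    obtain ⟨n, hn⟩ := hA {f x ⊔ f y} (by
      simp only [Finset.coe_singleton, singleton_subset_iff]
      refine ⟨{f x, f y}, by simp, ?_, .of_forall fun m => by simp⟩
      simp only [Finset.coe_insert, Finset.coe_singleton, insert_subset_iff, singleton_subset_iff]
      exact ⟨⟨x, a1, rfl⟩, y, a2, rfl⟩)
    obtain ⟨u, b1, b2⟩ := hn (Finset.mem_coe.2 (Finset.mem_singleton_self _))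
    obtain ⟨i, b3, rfl⟩ := hk n u b1
    exact b2 (subset_closure ⟨(x, y), ⟨a1, a2, fun b4 => p4 t n (hxy ▸ h3 n b3 b4)⟩, rfl⟩)
  · choose T t1 t2 t3 using fun n => TopologicalSpace.isOpen_sUnion_countable (U n) (ho n)
    choose u hu using fun n => (t1 n).exists_eq_range (by
      obtain ⟨x, hx⟩ := hX
      obtain ⟨s, hs, -⟩ := (t3 n).ge (hc n hx)
      exact ⟨s, hs⟩)
    have hU : ∀ n m, u n m ∈ U n := fun n m => t2 n (hu n ▸ mem_range_self m)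
    obtain ⟨g, hg⟩ := egor (S := X) (μ := μ)
      (fun N hN => (hμ N hN).mono (inter_subset_inter_left _ inter_subset_left))
      (fun n m => ⋃ i ∈ Iic m, u n i)
      (fun n m => .biUnion (to_countable _) fun i _ => (ho n _ (hU n i)).measurableSet)
      fun n x hx => by
        obtain ⟨s, hs, h9⟩ := (t3 n).ge (hc n hx)
        obtain ⟨i, rfl⟩ := (hu n).le hs
        filter_upwards [eventually_ge_atTop i] with m hm using mem_biUnion hm h9
    refine ⟨fun n => (Finset.Iic (g n)).image (u n), fun n s hs => ?_, fun A hA => ?_⟩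
    · obtain ⟨i, -, rfl⟩ := Finset.mem_image.1 hs
      exact hU n i
    · obtain ⟨n, hn⟩ := ((eventually_all_finset A).2 fun x hx => hg x (hA hx)).exists
      refine ⟨n, fun x hx => ?_⟩
      obtain ⟨i, b1, b2⟩ := mem_iUnion₂.1 (hn x hx)
      exact ⟨_, Finset.mem_image_of_mem _ (Finset.mem_Iic.2 b1), b2⟩
  · refine fun x hx => (continuousAt_pi.2 fun m => ?_).continuousWithinAt
    refine continuousAt_const.congr (f := fun _ => f x m) ?_
    filter_upwards [fl_cont hx.2 (e m).1] with y hy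
    simp only [f]
    rcases hm : e m with ⟨n, _ | j⟩ <;> rw [hm] at hy <;> simp only [cd] at hy ⊢ <;> rw [hy]
  · rintro n g ⟨G, g1, g2, g3⟩
    obtain ⟨Z, z1, z2, z3⟩ := G.finite_toSet.exists_subset_finite_image_eq g2
    have : ∀ᶠ k in atTop, ∀ a ∈ Z, ∀ b ∈ Z, a + b ∈ W n k :=
      z2.eventually_all.2 fun a ha => z2.eventually_all.2 fun b hb => by
        obtain ⟨k, hk⟩ := h4 n _ (h7 a (z1 ha).1 b (z1 hb).1)
        filter_upwards [eventually_ge_atTop k] with m hm using h3 n hm hk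
    obtain ⟨k, hk⟩ := this.exists
    refine ⟨_, mem_range_self k, fun hc => ?_⟩
    rw [mem_closure_iff_clusterPt, ← map_principal] at hc
    obtain ⟨𝒰, u1, u2⟩ := mapClusterPt_iff_ultrafilter.1 hc
    have u3 : ∀ i, ∀ᶠ p : ℝ × ℝ in (𝒰 : Filter _), max (cd p.1 i) (cd p.2 i) = g (e.symm i) :=
      fun i => by
        have := tendsto_pi_nhds.1 u2 (e.symm i)
        rw [nhds_discrete, tendsto_pure] at this
        simpa [f] using this
    have u4 : ∀ᶠ i in cofinite, ∃ z ∈ Z, g (e.symm i) ≤ cd z i := by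
      rw [← Nat.cofinite_eq_atTop] at g3
      filter_upwards [e.symm.injective.tendsto_cofinite g3] with i hi
      obtain ⟨w, w1, w2⟩ := G.exists_mem_eq_sup g1 fun h => h (e.symm i)
      obtain ⟨z, w3, rfl⟩ := z3.ge w1
      exact ⟨z, w3, by simpa [f] using hi.trans w2.le⟩
    obtain ⟨a, a1, a2⟩ := key 𝒰 Prod.fst _
      (fun i => (u3 i).mono fun p hp => (le_max_left _ _).trans hp.le) z2 u4
    obtain ⟨b, b1, b2⟩ := key 𝒰 Prod.snd _
      (fun i => (u3 i).mono fun p hp => (le_max_right _ _).trans hp.le) z2 u4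
    obtain ⟨p, p1, p2⟩ := (((a2.add b2).eventually ((h2 n k).mem_nhds (hk a a1 b b1))).and
      (le_principal_iff.1 u1)).exists
    exact p2.2.2 p1

end Pool.Agent.Results.MP_10444e_gt.CH
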